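import Pool.Agent.Q148.FreeKR.Space

/-!
# MP_ebea7e: a closed subgroup of a free abelian topological `k_ℝ`-group which is not `k_ℝ`

`X ⊆ [0, ω₁] × βℕ` is the set of all points `(a, p)` with `a < ω₁` or `p ∈ ℕ`.  The free abelian
topological group `A(X)` is a `k_ℝ`-space (`Pool.Agent.Q148.FreeKR.isKR`).  Its subgroup `H`
generated by the points `(ω₁, n)` is closed, not discrete, and all its compact subsets are finite.
-/

open Filter Topology
open Pool.Agent.Q148.FreeKR

namespace Pool.Agent.Results.MP_ebea7e_gt.NotKR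

open Classical in
/-- The indicator function of `{(a, p) | a ≤ η, D ∈ p}`. -/
noncomputable def ind (η : L) (D : Set ℕ) (x : X) : ℤ :=
  if x.1.1 ≤ η ∧ D ∈ x.1.2 then 1 else 0

theorem isClopen_ind (η : L) (D : Set ℕ) : IsClopen {x : X | x.1.1 ≤ η ∧ D ∈ x.1.2} := by
  have h1 : IsClopen {x : X | D ∈ x.1.2} := by
    have hc : Continuous (fun x : X => x.1.2) := continuous_snd.comp continuous_subtype_val
    exact ⟨(ultrafilter_isClosed_basic D).preimage hc, (ultrafilter_isOpen_basic D).preimage hc⟩
  have h2 : IsClopen {x : X | x.1.1 ≤ η} := by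
    have hc : Continuous (fun x : X => x.1.1) := continuous_fst.comp continuous_subtype_val
    refine ⟨isClosed_Iic.preimage hc, ?_⟩
    by_cases h : η < ⊤
    · exact (L_open η h).preimage hc
    · have : {x : X | x.1.1 ≤ η} = Set.univ := by
        ext x
        rw [not_lt_top_iff] at h
        simp [h]
      rw [this]
      exact isOpen_univ
  exact h2.inter h1

theorem continuous_ind (η : L) (D : Set ℕ) : Continuous (ind η D) := by
  classical
  have := isClopen_ind η D
  unfold ind
  refine continuous_if ?_ continuous_const.continuousOn continuous_const.continuousOn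
  intro x hx
  rw [this.frontier_eq] at hx
  exact absurd hx (Set.notMem_empty x)

/-- The homomorphism `A(X) → ℤ` extending `ind η D`. -/
noncomputable def e (η : L) (D : Set ℕ) : A X →+ ℤ := lift (ind η D)

theorem continuous_e (η : L) (D : Set ℕ) : Continuous (e η D) := continuous_lift (continuous_ind η D)

/-- The point `(ω₁, n)`. -/
noncomputable def y (n : ℕ) : X := ⟨(⊤, pure n), Or.inr ⟨n, rfl⟩⟩

/-- The closed subgroup `H`. -/
noncomputable def H : AddSubgroup (A X) where
  carrier := {g | ∀ η, η < ⊤ → ∀ D, e η D g = 0}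
  zero_mem' := fun η _ D => map_zero _
  add_mem' := by
    intro a b ha hb η hη D
    rw [map_add, ha η hη D, hb η hη D, add_zero]
  neg_mem' := by
    intro a ha η hη D
    rw [map_neg, ha η hη D, neg_zero]

theorem mem_H (g : A X) : g ∈ H ↔ ∀ η, η < ⊤ → ∀ D, e η D g = 0 := Iff.rfl

theorem isClosed_H : IsClosed (H : Set (A X)) := by
  have : (H : Set (A X)) = ⋂ η : L, ⋂ (_ : η < ⊤), ⋂ D : Set ℕ, {g | e η D g = 0} := by
    ext g
    simp only [Set.mem_iInter, SetLike.mem_coe, mem_H, Set.mem_ofPred_eq]
  rw [this]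
  refine isClosed_iInter fun η => isClosed_iInter fun _ => isClosed_iInter fun D => ?_
  exact isClosed_eq (continuous_e η D) continuous_const

theorem y_mem_H (n : ℕ) : of (y n) ∈ H := by
  intro η hη D
  show lift (ind η D) (of (y n)) = 0
  rw [lift_of]
  unfold ind
  rw [if_neg]
  rintro ⟨h, -⟩
  exact absurd h (not_le.2 hη)

/-- Finitely many ultrafilters are separated by a set. -/
theorem separate (p : Ultrafilter ℕ) (Q : Finset (Ultrafilter ℕ)) :
    ∃ D ∈ p, ∀ q ∈ Q, D ∈ q → q = p := by
  classical
  have hcl : IsClosed ((Q.erase p : Finset (Ultrafilter ℕ)) : Set (Ultrafilter ℕ)) :=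
    (Finset.finite_toSet _).isClosed
  have hmem : p ∈ (((Q.erase p : Finset (Ultrafilter ℕ)) : Set (Ultrafilter ℕ)))ᶜ := by simp
  obtain ⟨_, ⟨D, rfl⟩, hpD, hD⟩ := ultrafilterBasis_is_basis.exists_subset_of_mem_open hmem
    hcl.isOpen_compl
  refine ⟨D, hpD, ?_⟩
  intro q hq hqD
  by_contra hne
  have := hD hqD
  apply this
  simp [hne, hq]

theorem supp_H {g : A X} (hg : g ∈ H) {x : X} (hx : g x ≠ 0) : ∃ n, x = y n := by
  classical
  by_contra hcon
  have hlt : x.1.1 < ⊤ := by
    rcases x.2 with h | ⟨n, hn⟩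
    · exact h
    · by_contra htop
      rw [not_lt_top_iff] at htop
      exact hcon ⟨n, Subtype.ext (Prod.ext htop hn)⟩
  let S : Finset X := g.support.filter (fun x => x.1.1 < ⊤)
  have hS : S.Nonempty := ⟨x, by simp [S, hx, hlt]⟩
  obtain ⟨z, hzS, hz⟩ := S.exists_min_image (fun x => x.1.1) hS
  obtain ⟨D, hD1, hD2⟩ := separate z.1.2 (S.image (fun x => x.1.2))
  have hzS' := Finset.mem_filter.1 hzS
  have h0 := hg z.1.1 hzS'.2 D
  have h1 : e z.1.1 D g = g z := by
    show lift (ind z.1.1 D) g = g z
    rw [lift_apply, Finsupp.sum, Finset.sum_eq_single z]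
    · unfold ind
      rw [if_pos ⟨le_rfl, hD1⟩]
      simp
    · intro w hw hwz
      unfold ind
      rw [if_neg]
      · simp
      · rintro ⟨h2, h3⟩
        apply hwz
        have hwS : w ∈ S := Finset.mem_filter.2 ⟨hw, lt_of_le_of_lt h2 hzS'.2⟩
        have h4 := hz w hwS
        have h5 := hD2 w.1.2 (Finset.mem_image_of_mem _ hwS) h3
        exact Subtype.ext (Prod.ext (le_antisymm h2 h4) h5)
    · intro h
      rw [Finsupp.notMem_support_iff] at h
      simp [h]
  rw [h1] at h0
  exact (Finsupp.mem_support_iff.1 hzS'.1) h0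

theorem y_inj {m n : ℕ} (h : y m = y n) : m = n := by
  have h1 : (pure m : Ultrafilter ℕ) = pure n := congrArg (fun x : X => x.1.2) h
  exact Ultrafilter.pure_injective h1

/-- The value of the full character `e ⊤ D` on elements of `H`. -/
theorem e_top {g : A X} (hg : g ∈ H) (D : Set ℕ) (N : ℕ) (hN : ∀ n, N ≤ n → g (y n) = 0) :
    e ⊤ D g = ∑ n ∈ Finset.range N, (open Classical in if n ∈ D then g (y n) else 0) := by
  classical
  show lift (ind ⊤ D) g = _
  rw [lift_apply, Finsupp.sum]
  have h1 : g.support ⊆ (Finset.range N).image y := by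
    intro x hx
    obtain ⟨n, rfl⟩ := supp_H hg (Finsupp.mem_support_iff.1 hx)
    refine Finset.mem_image_of_mem _ (Finset.mem_range.2 ?_)
    by_contra hn
    exact (Finsupp.mem_support_iff.1 hx) (hN n (not_lt.1 hn))
  rw [Finset.sum_subset h1]
  · rw [Finset.sum_image (fun a _ b _ h => y_inj h)]
    apply Finset.sum_congr rfl
    intro n _
    unfold ind
    by_cases hn : n ∈ D
    · rw [if_pos ⟨le_top, show D ∈ (y n).1.2 from hn⟩, if_pos hn]
      simp
    · rw [if_neg, if_neg hn]
      · simp
      · rintro ⟨-, h⟩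
        exact hn h
  · intro x _ hx
    rw [Finsupp.notMem_support_iff] at hx
    simp [hx]

theorem exists_bound (g : A X) : ∃ N, ∀ n, N ≤ n → g (y n) = 0 := by
  classical
  have hfin : {n | g (y n) ≠ 0}.Finite := by
    have := (g.support.finite_toSet).preimage (f := y) (fun a _ b _ h => y_inj h)
    refine this.subset ?_
    intro n hn
    simpa using hn
  obtain ⟨N, hN⟩ := hfin.bddAbove
  refine ⟨N + 1, fun n hn => ?_⟩
  by_contra h
  have := hN h
  omega

/-- Compact subsets of `A X` contained in `H` are finite. -/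
theorem finite_of_compact (C : Set (A X)) (hC : IsCompact C) (hCH : C ⊆ H) : C.Finite := by
  classical
  -- the supports are bounded
  have hbd : ∃ N, ∀ g ∈ C, ∀ n, N ≤ n → g (y n) = 0 := by
    by_contra hcon
    push Not at hcon
    -- a sequence with strictly increasing maxima of supports
    have hstep : ∀ N : ℕ, ∃ (g : A X) (k : ℕ), g ∈ C ∧ N ≤ k ∧ g (y k) ≠ 0 ∧
        ∀ n, k < n → g (y n) = 0 := by
      intro N
      obtain ⟨g, hgC, n, hn, hgn⟩ := hcon N
      obtain ⟨M, hM⟩ := exists_bound g
      let T : Finset ℕ := (Finset.range M).filter (fun n => g (y n) ≠ 0)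
      have hnT : n ∈ T := by
        simp only [T, Finset.mem_filter, Finset.mem_range]
        refine ⟨?_, hgn⟩
        by_contra h
        exact hgn (hM n (not_lt.1 h))
      refine ⟨g, T.max' ⟨n, hnT⟩, hgC, hn.trans (T.le_max' n hnT), ?_, ?_⟩
      · exact (Finset.mem_filter.1 (T.max'_mem ⟨n, hnT⟩)).2
      · intro m hm
        by_contra h
        have hmT : m ∈ T := by
          simp only [T, Finset.mem_filter, Finset.mem_range]
          refine ⟨?_, h⟩
          by_contra h'
          exact h (hM m (not_lt.1 h'))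
        exact absurd (T.le_max' m hmT) (not_le.2 hm)
    choose G K hG1 hG2 hG3 hG4 using hstep
    let N : ℕ → ℕ := fun i => (fun N => K N + 1)^[i] 0
    have hN : ∀ i, N (i + 1) = K (N i) + 1 := fun i => Function.iterate_succ_apply' _ _ _
    let k : ℕ → ℕ := fun i => K (N i)
    let g : ℕ → A X := fun i => G (N i)
    have hk : StrictMono k := by
      apply strictMono_nat_of_lt_succ
      intro i
      have := hG2 (N (i + 1))
      rw [hN i] at this
      show K (N i) < K (N (i + 1))
      rw [hN i]
      omega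
    have hgk : ∀ i, g i (y (k i)) ≠ 0 := fun i => hG3 (N i)
    have hgk' : ∀ i n, k i < n → g i (y n) = 0 := fun i => hG4 (N i)
    -- a cluster point
    obtain ⟨h, hhC, hh⟩ := hC.exists_mapClusterPt (f := atTop) (u := g)
      (by rw [le_principal_iff, mem_map]; exact Filter.Eventually.of_forall (fun i => hG1 (N i)))
    obtain ⟨M, hM⟩ := exists_bound h
    -- the set `D`
    have hD : ∃ D : Set ℕ, (∀ n ∈ D, M ≤ n) ∧ ∀ i, M ≤ k i →
        (∑ n ∈ Finset.range (k i + 1), if n ∈ D then g i (y n) else 0) ≠ 0 := by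
      let S : ℕ → Finset ℕ := fun i => Nat.rec (motive := fun _ => Finset ℕ) ∅ (fun i (Si : Finset ℕ) =>
        if M ≤ k i ∧ (∑ n ∈ Finset.range (k i), if n ∈ Si then g i (y n) else 0) = 0 then
          insert (k i) Si else Si) i
      have hS0 : S 0 = ∅ := rfl
      have hSs : ∀ i, S (i + 1) = if M ≤ k i ∧
          (∑ n ∈ Finset.range (k i), if n ∈ S i then g i (y n) else 0) = 0 then
          insert (k i) (S i) else S i := fun i => rfl
      have hSlt : ∀ i, ∀ n ∈ S i, M ≤ n ∧ n < k i := by
        intro i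
        induction i with
        | zero => intro n hn; rw [hS0] at hn; simp at hn
        | succ i ih =>
          intro n hn
          rw [hSs] at hn
          have hki := hk (Nat.lt_succ_self i)
          split_ifs at hn with hc
          · rcases Finset.mem_insert.1 hn with rfl | hn
            · exact ⟨hc.1, hki⟩
            · exact ⟨(ih n hn).1, (ih n hn).2.trans hki⟩
          · exact ⟨(ih n hn).1, (ih n hn).2.trans hki⟩
      have hSmono : ∀ i, S i ⊆ S (i + 1) := by
        intro i
        rw [hSs]
        split_ifs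
        · exact Finset.subset_insert _ _
        · exact subset_rfl
      have hSmono' : ∀ i j, i ≤ j → S i ⊆ S j := fun i j hij =>
        monotone_nat_of_le_succ hSmono hij
      have hnew : ∀ i n, n ∈ S (i + 1) → n < k i → n ∈ S i := by
        intro i n hn hlt
        rw [hSs] at hn
        split_ifs at hn with hc
        · rcases Finset.mem_insert.1 hn with rfl | hn
          · exact absurd hlt (lt_irrefl _)
          · exact hn
        · exact hn
      have hold : ∀ j i n, i ≤ j → n ∈ S j → n < k i → n ∈ S i := by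
        intro j i n hij
        induction j, hij using Nat.le_induction with
        | base => intro h _; exact h
        | succ j hij ih =>
          intro h hlt
          exact ih (hnew j n h (hlt.trans_le (hk.monotone hij))) hlt
      let D : Set ℕ := {n | ∃ i, n ∈ S i}
      have hDS : ∀ i n, n < k i → (n ∈ D ↔ n ∈ S i) := by
        intro i n hlt
        constructor
        · rintro ⟨j, hj⟩
          rcases le_total i j with h | h
          · exact hold j i n h hj hlt
          · exact hSmono' j i h hj
        · intro h; exact ⟨i, h⟩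
      have hDk : ∀ i, (k i ∈ D ↔ k i ∈ S (i + 1)) := fun i =>
        hDS (i + 1) (k i) (hk (Nat.lt_succ_self i))
      refine ⟨D, ?_, ?_⟩
      · rintro n ⟨i, hi⟩
        exact (hSlt i n hi).1
      · intro i hMi
        rw [Finset.sum_range_succ]
        have h1 : (∑ n ∈ Finset.range (k i), if n ∈ D then g i (y n) else 0) =
            ∑ n ∈ Finset.range (k i), if n ∈ S i then g i (y n) else 0 := by
          apply Finset.sum_congr rfl
          intro n hn
          have := hDS i n (Finset.mem_range.1 hn)
          by_cases hnS : n ∈ S i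
          · rw [if_pos (this.2 hnS), if_pos hnS]
          · rw [if_neg (fun h => hnS (this.1 h)), if_neg hnS]
        rw [h1]
        by_cases hc : (∑ n ∈ Finset.range (k i), if n ∈ S i then g i (y n) else 0) = 0
        · have : k i ∈ D := by
            rw [hDk, hSs, if_pos ⟨hMi, hc⟩]
            exact Finset.mem_insert_self _ _
          rw [hc, if_pos this, zero_add]
          exact hgk i
        · have : k i ∉ D := by
            rw [hDk, hSs, if_neg (fun h => hc h.2)]
            intro h
            exact absurd (hSlt i _ h).2 (lt_irrefl _)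
          rw [if_neg this, add_zero]
          exact hc
    obtain ⟨D, hD1, hD2⟩ := hD
    have heh : e ⊤ D h = 0 := by
      rw [e_top (hCH hhC) D M hM]
      apply Finset.sum_eq_zero
      intro n hn
      rw [if_neg]
      intro hnD
      exact absurd (hD1 n hnD) (not_le.2 (Finset.mem_range.1 hn))
    have hopen : {a : A X | e ⊤ D a = 0} ∈ 𝓝 h :=
      ((isOpen_discrete ({0} : Set ℤ)).preimage (continuous_e ⊤ D)).mem_nhds heh
    have hfr := mapClusterPt_iff_frequently.1 hh _ hopen
    have hev : ∀ᶠ i in atTop, M ≤ k i := by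
      filter_upwards [eventually_ge_atTop M] with i hi
      exact hi.trans (hk.id_le i)
    obtain ⟨i, hi1, hi2⟩ := (hfr.and_eventually hev).exists
    have h3 := e_top (hCH (hG1 (N i))) D (k i + 1) (fun n hn => hgk' i n (by omega))
    apply hD2 i hi2
    rw [← h3]
    exact hi1
  obtain ⟨N, hN⟩ := hbd
  -- `C` embeds into a finite set of functions
  have hval : ∀ n, {m : ℤ | ∃ g ∈ C, g (y n) = m}.Finite := by
    intro n
    have h1 : {m : ℤ | ∃ g ∈ C, g (y n) = m} ⊆ e ⊤ {n} '' C := by
      rintro m ⟨g, hg, rfl⟩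
      refine ⟨g, hg, ?_⟩
      obtain ⟨M, hM⟩ := exists_bound g
      rw [e_top (hCH hg) {n} (max M (n + 1)) (fun i hi => hM i ((le_max_left _ _).trans hi)),
        Finset.sum_eq_single n]
      · simp
      · intro b _ hb
        rw [if_neg (show b ∉ ({n} : Set ℕ) from hb)]
      · intro hn
        exact absurd (Finset.mem_range.2 (lt_of_lt_of_le (Nat.lt_succ_self n)
          (le_max_right _ _))) hn
    exact (isCompact_iff_finite.1 (hC.image (continuous_e ⊤ {n}))).subset h1
  have hinj : Set.InjOn (fun g : A X => fun n : Fin N => g (y n)) C := by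
    intro a ha b hb hab
    ext x
    by_cases hx : ∃ n, x = y n
    · obtain ⟨n, rfl⟩ := hx
      by_cases hn : n < N
      · exact congrFun hab ⟨n, hn⟩
      · rw [hN a ha n (not_lt.1 hn), hN b hb n (not_lt.1 hn)]
    · have h1 : a x = 0 := by
        by_contra h; exact hx (supp_H (hCH ha) h)
      have h2 : b x = 0 := by
        by_contra h; exact hx (supp_H (hCH hb) h)
      rw [h1, h2]
  refine Set.Finite.of_finite_image ?_ hinj
  have hpi : (Set.pi Set.univ (fun n : Fin N => {m : ℤ | ∃ g ∈ C, g (y n) = m})).Finite :=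
    Set.Finite.pi (fun n => hval n)
  refine hpi.subset ?_
  rintro _ ⟨g, hg, rfl⟩ n _
  exact ⟨g, hg, rfl⟩

/-- Every neighbourhood of zero contains a difference of two different points `(ω₁, n)`. -/
theorem exists_diff (U : Set (A X)) (hU : U ∈ 𝓝 (0 : A X)) :
    ∃ m n, m ≠ n ∧ of (y m) - of (y n) ∈ U := by
  obtain ⟨V, hV, hVU⟩ := exists_nhds_zero_quarter hU
  have hV' : -V ∈ 𝓝 (0 : A X) := neg_mem_nhds_zero _ hV
  -- points `(a, n)` near `(ω₁, n)`
  have h1 : ∀ n : ℕ, ∃ b, b < ⊤ ∧ ∀ a, b < a → a ≤ ⊤ →
      of (tr a (y n)) - of (y n) ∈ V ∩ -V := by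
    intro n
    have hc : Continuous (fun a : L => of (tr a (y n)) - of (y n)) := by
      refine (continuous_of.comp ?_).sub continuous_const
      exact continuous_tr.comp (continuous_id.prodMk continuous_const)
    have h2 : Tendsto (fun a : L => of (tr a (y n)) - of (y n)) (𝓝 ⊤) (𝓝 0) := by
      have := hc.tendsto ⊤
      rw [tr_eq ⊤ (y n) le_top, sub_self] at this
      exact this
    have h3 := h2 (inter_mem hV hV')
    obtain ⟨b, hb, hbU⟩ := exists_Ioc_subset_of_mem_nhds h3 ⟨⊥, L_bot_lt⟩
    exact ⟨b, hb, fun a hba ha => hbU ⟨hba, ha⟩⟩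
  choose b hb hbV using h1
  obtain ⟨c, hc, hcb⟩ := L_bd b hb
  -- the points `(c, q)`
  let w : Ultrafilter ℕ → X := fun q => ⟨(c, q), Or.inl hc⟩
  have hwc : Continuous w := (continuous_const.prodMk continuous_id).subtype_mk _
  have hw : ∀ n, w (pure n) = tr c (y n) := by
    intro n
    apply Subtype.ext
    refine Prod.ext ?_ rfl
    show c = min ⊤ c
    rw [min_eq_right le_top]
  let p : Ultrafilter ℕ := hyperfilter ℕ
  have h4 : Tendsto (fun q => of (w q) - of (w p)) (𝓝 p) (𝓝 0) := by
    have : Continuous (fun q => of (w q) - of (w p)) :=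
      (continuous_of.comp hwc).sub continuous_const
    simpa using this.tendsto p
  have h5 : Tendsto (fun n : ℕ => of (w (pure n)) - of (w p)) (p : Filter ℕ) (𝓝 0) :=
    h4.comp (Ultrafilter.tendsto_pure_self p)
  have h6 : ∀ᶠ n in (p : Filter ℕ), of (w (pure n)) - of (w p) ∈ V ∩ -V := h5 (inter_mem hV hV')
  obtain ⟨m, hm⟩ := h6.exists
  have h7 : ∀ᶠ n in (p : Filter ℕ), n ≠ m := by
    have : ({m}ᶜ : Set ℕ) ∈ (hyperfilter ℕ : Filter ℕ) :=
      Set.Finite.compl_mem_hyperfilter (Set.finite_singleton m)
    exact this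
  obtain ⟨n, hn, hnm⟩ := (h6.and h7).exists
  refine ⟨m, n, hnm.symm, ?_⟩
  have h8 := hbV m c (hcb m) le_top
  have h9 := hbV n c (hcb n) le_top
  rw [← hw] at h8 h9
  have h10 := hVU h8.2 hm.1 hn.2 h9.1
  convert h10 using 1
  abel

theorem not_kR_H : ¬ IsKRSpace H := by
  classical
  intro hkr
  have h1 := hkr (fun g => if g = 0 then 1 else 0) (by
    intro K hK
    have hfin : K.Finite := by
      have h2 := finite_of_compact (Subtype.val '' K) (hK.image continuous_subtype_val) (by
        rintro _ ⟨g, _, rfl⟩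
        exact g.2)
      exact Set.Finite.of_finite_image h2 Subtype.val_injective.injOn
    have : T2Space (A X) := t2_A
    have : DiscreteTopology K := by
      have := hfin.to_subtype
      infer_instance
    exact continuousOn_iff_continuous_domRestrict.2 continuous_of_discreteTopology)
  have h2 : IsOpen {g : H | (if g = 0 then (1 : ℝ) else 0) > 1 / 2} :=
    isOpen_Ioi.preimage h1
  have h3 : {g : H | (if g = 0 then (1 : ℝ) else 0) > 1 / 2} ∈ 𝓝 (0 : H) := by
    apply h2.mem_nhds
    show (if (0 : H) = 0 then (1 : ℝ) else 0) > 1 / 2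
    rw [if_pos rfl]
    norm_num
  obtain ⟨U, hU, hUsub⟩ := (mem_nhds_induced _ _ _).1 h3
  obtain ⟨m, n, hmn, hmem⟩ := exists_diff U hU
  have h4 := hUsub (show (⟨of (y m) - of (y n), H.sub_mem (y_mem_H m) (y_mem_H n)⟩ : H) ∈
    Subtype.val ⁻¹' U from hmem)
  have h5 : (⟨of (y m) - of (y n), H.sub_mem (y_mem_H m) (y_mem_H n)⟩ : H) ≠ 0 := by
    intro h
    have h6 : of (y m) - of (y n) = 0 := congrArg Subtype.val h
    rw [sub_eq_zero] at h6
    have h7 := congrArg (fun f : A X => f (y m)) h6
    simp only [of, Finsupp.single_apply] at h7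
    rw [if_pos trivial, if_neg] at h7
    · exact one_ne_zero h7
    · intro h8
      exact hmn (y_inj h8).symm
  have h6 : (if (⟨of (y m) - of (y n), H.sub_mem (y_mem_H m) (y_mem_H n)⟩ : H) = 0
    then (1 : ℝ) else 0) > 1 / 2 := h4
  rw [if_neg h5] at h6
  norm_num at h6

/-- There are a Tychonoff space `X`, for which the free abelian topological group `A(X)`
(the free abelian group `X →₀ ℤ` with the finest group topology inducing the topology of `X`) is
a Hausdorff `k_ℝ`-space, and a closed subgroup `H` of `A(X)` which is not a `k_ℝ`-space. -/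
theorem result : ∃ (X : Type) (_ : TopologicalSpace X) (t : TopologicalSpace (X →₀ ℤ))
    (H : AddSubgroup (X →₀ ℤ)), T35Space X ∧ IsFreeTopology X t ∧ T2Space (X →₀ ℤ) ∧
    IsKRSpace (X →₀ ℤ) ∧ IsClosed (H : Set (X →₀ ℤ)) ∧ ¬ IsKRSpace H :=
  ⟨X, inferInstance, freeTop X, H, inferInstance, isFreeTopology, t2_A, isKR, isClosed_H, not_kR_H⟩

end Pool.Agent.Results.MP_ebea7e_gt.NotKR
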